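import Pool.Agent.TH456.TM.E

/-!
# Rational approximations to `t + e`, `t - e`, `t e`, `t / e`: explicit exponents
-/

set_option autoImplicit false

namespace Pool.Agent.V11210.EP

open Real Pool.Agent.W472.AC

lemma lin1 (η : ℝ) (hη : 0 < η) : ∃ c : ℝ, 0 < c ∧ ∀ a b : ℤ, (a ≠ 0 ∨ b ≠ 0) → ∀ H : ℝ, 1 ≤ H →
    |(a : ℝ)| ≤ H → |(b : ℝ)| ≤ H → c ≤ H ^ (1 + η) * |(a : ℝ) + b * exp 1| := by
  obtain ⟨c, hc, h⟩ := e_meas 1 ![0, 1] (by decide) rfl (by decide) η hη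
  refine ⟨c, hc, fun a b hab H hH ha hb => ?_⟩
  have h1 := h ![a, b] (by
    intro h0
    rcases hab with h2 | h2
    · exact h2 (congrFun h0 0)
    · exact h2 (congrFun h0 1)) H hH (by
    intro j
    fin_cases j
    · exact ha
    · exact hb)
  simpa [Fin.sum_univ_two] using h1

lemma lin2 (η : ℝ) (hη : 0 < η) : ∃ c : ℝ, 0 < c ∧ ∀ a b : ℤ, (a ≠ 0 ∨ b ≠ 0) → ∀ H : ℝ, 1 ≤ H →
    |(a : ℝ)| ≤ H → |(b : ℝ)| ≤ H → c ≤ H ^ (1 + η) * |(a : ℝ) + b * exp 1 ^ 2| := by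
  obtain ⟨c, hc, h⟩ := e_meas 1 ![0, 2] (by decide) rfl (by decide) η hη
  refine ⟨c, hc, fun a b hab H hH ha hb => ?_⟩
  have h1 := h ![a, b] (by
    intro h0
    rcases hab with h2 | h2
    · exact h2 (congrFun h0 0)
    · exact h2 (congrFun h0 1)) H hH (by
    intro j
    fin_cases j
    · exact ha
    · exact hb)
  have e2 : exp ((2 : ℤ) : ℝ) = exp 1 ^ 2 := by
    rw [← Real.exp_nat_mul]
    norm_num
  rw [Fin.sum_univ_two] at h1
  simp only [Matrix.cons_val_zero, Matrix.cons_val_one, e2, Int.cast_zero, exp_zero, mul_one,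
    Nat.cast_one] at h1
  exact h1

lemma quad (η : ℝ) (hη : 0 < η) : ∃ c : ℝ, 0 < c ∧ ∀ a b d : ℤ, d ≠ 0 → ∀ H : ℝ, 1 ≤ H →
    |(a : ℝ)| ≤ H → |(b : ℝ)| ≤ H → |(d : ℝ)| ≤ H →
    c ≤ H ^ (2 + η) * |(a : ℝ) + b * exp 1 + d * exp 1 ^ 2| := by
  obtain ⟨c, hc, h⟩ := e_meas 2 ![0, 1, 2] (by decide) rfl (by decide) η hη
  refine ⟨c, hc, fun a b d hd H hH ha hb hdH => ?_⟩
  have h1 := h ![a, b, d] (by
    intro h0
    exact hd (congrFun h0 2)) H hH (by
    intro j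
    fin_cases j
    · exact ha
    · exact hb
    · exact hdH)
  have e2 : exp ((2 : ℤ) : ℝ) = exp 1 ^ 2 := by
    rw [← Real.exp_nat_mul]
    norm_num
  rw [Fin.sum_univ_three] at h1
  simp only [Matrix.cons_val_zero, Matrix.cons_val_one, Matrix.cons_val_two, Matrix.tail_cons,
    Matrix.head_cons, e2, Int.cast_zero, Int.cast_one, exp_zero, mul_one,
    Nat.cast_ofNat] at h1
  exact h1

lemma wrap (c0 K K' w δ : ℝ) (hc0 : 0 < c0) (hK : 1 ≤ K) (hK' : 0 < K') (hw : 0 ≤ w)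
    (hδ : 0 < δ) : ∃ c : ℝ, 0 < c ∧ ∀ n S v : ℝ, 1 ≤ n → 0 ≤ S →
      (S ≤ 1 → δ ≤ S ∨ (c0 ≤ (K * n) ^ w * v ∧ v ≤ K' * n * S)) → c * n ^ (-(w + 1)) ≤ S := by
  have hK0 : 0 < K := by linarith
  refine ⟨min (min 1 δ) (c0 / (K ^ w * K')), lt_min (lt_min one_pos hδ) (by positivity),
    fun n S v hn hS h => ?_⟩
  have hn0 : 0 < n := by linarith
  have hn1 : n ^ (-(w + 1)) ≤ 1 := by
    apply Real.rpow_le_one_of_one_le_of_nonpos hn
    linarith
  have hnn : 0 ≤ n ^ (-(w + 1)) := by positivity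
  have hmin0 : 0 ≤ min (min 1 δ) (c0 / (K ^ w * K')) :=
    (lt_min (lt_min one_pos hδ) (by positivity)).le
  by_cases hS1 : S ≤ 1
  · rcases h hS1 with h1 | ⟨h1, h2⟩
    · calc _ ≤ δ * 1 := by
            gcongr
            exact (min_le_left _ _).trans (min_le_right _ _)
        _ ≤ S := by linarith
    · have h3 : c0 ≤ (K ^ w * K') * (n ^ (w + 1) * S) := by
        calc c0 ≤ (K * n) ^ w * v := h1
          _ ≤ (K * n) ^ w * (K' * n * S) := by gcongr
          _ = _ := by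
              rw [Real.mul_rpow hK0.le hn0.le, Real.rpow_add hn0, Real.rpow_one]
              ring
      have h4 : n ^ (-(w + 1)) * n ^ (w + 1) = 1 := by
        rw [← Real.rpow_add hn0]
        simp
      calc _ ≤ c0 / (K ^ w * K') * n ^ (-(w + 1)) := by
            gcongr
            exact min_le_right _ _
        _ ≤ ((K ^ w * K') * (n ^ (w + 1) * S)) / (K ^ w * K') * n ^ (-(w + 1)) := by
            gcongr
        _ = S * (n ^ (-(w + 1)) * n ^ (w + 1)) := by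
            field_simp
        _ = S := by rw [h4, mul_one]
  · push Not at hS1
    calc _ ≤ 1 * 1 := by
          gcongr
          exact (min_le_left _ _).trans (min_le_left _ _)
      _ ≤ S := by linarith

lemma exp_one_ge : 1 ≤ exp 1 := Real.one_le_exp zero_le_one

/-- bounds for the numerator of an approximation -/
lemma num_bound (x T : ℝ) (hx : |x| ≤ T) (p : ℤ) (q : ℕ) (hq : 0 < q) (h : |x - (p : ℝ) / q| ≤ 1) :
    |(p : ℝ)| ≤ (T + 1) * q := by
  have hq0 : (0 : ℝ) < q := by exact_mod_cast hq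
  have h1 : |(p : ℝ) / q| ≤ T + 1 := by
    calc |(p : ℝ) / q| = |x - (x - (p : ℝ) / q)| := by congr 1; ring
      _ ≤ |x| + |x - (p : ℝ) / q| := abs_sub _ _
      _ ≤ T + 1 := by linarith
  rw [abs_div, abs_of_pos hq0, div_le_iff₀ hq0] at h1
  exact h1

section

variable (T δ η : ℝ)

/-- the approximations `p / q` to `x` and `r / s` to `y` -/
noncomputable def err (x y : ℝ) (p r : ℤ) (q s : ℕ) : ℝ := |x - (p : ℝ) / q| + |y - (r : ℝ) / s|

lemma err_nonneg (x y : ℝ) (p r : ℤ) (q s : ℕ) : 0 ≤ err x y p r q s := by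
  unfold err
  positivity

lemma one_le_mul (q s : ℕ) (hq : 0 < q) (hs : 0 < s) : 1 ≤ (q : ℝ) * s := by
  have h1 : (1 : ℝ) ≤ q := by exact_mod_cast hq
  have h2 : (1 : ℝ) ≤ s := by exact_mod_cast hs
  nlinarith

theorem r01 (hT : 0 ≤ T) (hη : 0 < η) : ∃ c : ℝ, 0 < c ∧ ∀ t : ℝ, |t + exp 1| ≤ T →
    |t - exp 1| ≤ T → ∀ (p r : ℤ) (q s : ℕ), 0 < q → 0 < s →
    c * ((q : ℝ) * s) ^ (-(2 + η)) ≤ err (t + exp 1) (t - exp 1) p r q s := by
  obtain ⟨c0, hc0, h0⟩ := lin1 η hη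
  obtain ⟨c, hc, h⟩ := wrap c0 (2 * (T + 1)) 1 (1 + η) 1 hc0 (by linarith) one_pos (by linarith)
    one_pos
  refine ⟨c, hc, fun t hu hv p r q s hq hs => ?_⟩
  have hn := one_le_mul q s hq hs
  have hq0 : (0 : ℝ) < q := by exact_mod_cast hq
  have hs0 : (0 : ℝ) < s := by exact_mod_cast hs
  have h1 := h ((q : ℝ) * s) (err (t + exp 1) (t - exp 1) p r q s)
    |((r * q - p * s : ℤ) : ℝ) + ((2 * q * s : ℤ) : ℝ) * exp 1| hn (err_nonneg _ _ _ _ _ _) ?_
  · rw [show (1 + η + 1 : ℝ) = 2 + η by ring] at h1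
    exact h1
  intro hS
  right
  have ha : |t + exp 1 - (p : ℝ) / q| ≤ 1 := by
    unfold err at hS
    linarith [abs_nonneg (t - exp 1 - (r : ℝ) / s)]
  have hb : |t - exp 1 - (r : ℝ) / s| ≤ 1 := by
    unfold err at hS
    linarith [abs_nonneg (t + exp 1 - (p : ℝ) / q)]
  have hp := num_bound _ T hu p q hq ha
  have hr := num_bound _ T hv r s hs hb
  constructor
  · refine h0 _ _ (Or.inr ?_) _ ?_ ?_ ?_
    · have : (0 : ℤ) < 2 * q * s := by positivity
      exact this.ne'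
    · nlinarith
    · push_cast
      calc |(r : ℝ) * q - p * s| ≤ |(r : ℝ)| * q + |(p : ℝ)| * s := by
            refine (abs_sub _ _).trans ?_
            rw [abs_mul, abs_mul, abs_of_pos hq0, abs_of_pos hs0]
        _ ≤ ((T + 1) * s) * q + ((T + 1) * q) * s := by gcongr
        _ = _ := by ring
    · push_cast
      rw [abs_of_pos (by positivity)]
      nlinarith [mul_pos hq0 hs0]
  · have e1 : ((r * q - p * s : ℤ) : ℝ) + ((2 * q * s : ℤ) : ℝ) * exp 1 =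
        (q * s : ℝ) * ((t + exp 1 - (p : ℝ) / q) - (t - exp 1 - (r : ℝ) / s)) := by
      push_cast
      field_simp
      ring
    rw [e1, abs_mul, abs_of_pos (mul_pos hq0 hs0), one_mul]
    gcongr
    exact abs_sub _ _

theorem r02 (hT : 0 ≤ T) (hη : 0 < η) : ∃ c : ℝ, 0 < c ∧ ∀ t : ℝ, |t + exp 1| ≤ T →
    |t * exp 1| ≤ T → ∀ (p r : ℤ) (q s : ℕ), 0 < q → 0 < s →
    c * ((q : ℝ) * s) ^ (-(3 + η)) ≤ err (t + exp 1) (t * exp 1) p r q s := by
  obtain ⟨c0, hc0, h0⟩ := quad η hη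
  obtain ⟨c, hc, h⟩ := wrap c0 (T + 1) (exp 1) (2 + η) 1 hc0 (by linarith) (exp_pos 1)
    (by linarith) one_pos
  refine ⟨c, hc, fun t hu hv p r q s hq hs => ?_⟩
  have hn := one_le_mul q s hq hs
  have hq0 : (0 : ℝ) < q := by exact_mod_cast hq
  have hs0 : (0 : ℝ) < s := by exact_mod_cast hs
  have h1 := h ((q : ℝ) * s) (err (t + exp 1) (t * exp 1) p r q s)
    |((r * q : ℤ) : ℝ) + ((-(p * s) : ℤ) : ℝ) * exp 1 + ((q * s : ℤ) : ℝ) * exp 1 ^ 2| hn
    (err_nonneg _ _ _ _ _ _) ?_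
  · rw [show (2 + η + 1 : ℝ) = 3 + η by ring] at h1
    exact h1
  intro hS
  right
  have ha : |t + exp 1 - (p : ℝ) / q| ≤ 1 := by
    unfold err at hS
    linarith [abs_nonneg (t * exp 1 - (r : ℝ) / s)]
  have hb : |t * exp 1 - (r : ℝ) / s| ≤ 1 := by
    unfold err at hS
    linarith [abs_nonneg (t + exp 1 - (p : ℝ) / q)]
  have hp := num_bound _ T hu p q hq ha
  have hr := num_bound _ T hv r s hs hb
  constructor
  · refine h0 _ _ _ ?_ _ ?_ ?_ ?_ ?_
    · have : (0 : ℤ) < q * s := by positivity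
      exact this.ne'
    · nlinarith
    · push_cast
      rw [abs_mul, abs_of_pos hq0]
      calc |(r : ℝ)| * q ≤ ((T + 1) * s) * q := by gcongr
        _ = _ := by ring
    · push_cast
      rw [abs_neg, abs_mul, abs_of_pos hs0]
      calc |(p : ℝ)| * s ≤ ((T + 1) * q) * s := by gcongr
        _ = _ := by ring
    · push_cast
      rw [abs_of_pos (by positivity)]
      nlinarith [mul_pos hq0 hs0]
  · have e1 : ((r * q : ℤ) : ℝ) + ((-(p * s) : ℤ) : ℝ) * exp 1 + ((q * s : ℤ) : ℝ) * exp 1 ^ 2 =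
        (q * s : ℝ) * ((t + exp 1 - (p : ℝ) / q) * exp 1 - (t * exp 1 - (r : ℝ) / s)) := by
      push_cast
      field_simp
      ring
    rw [e1, abs_mul, abs_of_pos (mul_pos hq0 hs0)]
    have e2 : |(t + exp 1 - (p : ℝ) / q) * exp 1 - (t * exp 1 - (r : ℝ) / s)| ≤
        exp 1 * err (t + exp 1) (t * exp 1) p r q s := by
      refine (abs_sub _ _).trans ?_
      unfold err
      rw [abs_mul, abs_of_pos (exp_pos 1)]
      have := exp_one_ge
      nlinarith [abs_nonneg (t * exp 1 - (r : ℝ) / s)]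
    calc (q : ℝ) * s * |(t + exp 1 - (p : ℝ) / q) * exp 1 - (t * exp 1 - (r : ℝ) / s)|
        ≤ (q : ℝ) * s * (exp 1 * err (t + exp 1) (t * exp 1) p r q s) := by gcongr
      _ = _ := by ring

theorem r12 (hT : 0 ≤ T) (hη : 0 < η) : ∃ c : ℝ, 0 < c ∧ ∀ t : ℝ, |t - exp 1| ≤ T →
    |t * exp 1| ≤ T → ∀ (p r : ℤ) (q s : ℕ), 0 < q → 0 < s →
    c * ((q : ℝ) * s) ^ (-(3 + η)) ≤ err (t - exp 1) (t * exp 1) p r q s := by
  obtain ⟨c0, hc0, h0⟩ := quad η hη
  obtain ⟨c, hc, h⟩ := wrap c0 (T + 1) (exp 1) (2 + η) 1 hc0 (by linarith) (exp_pos 1)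
    (by linarith) one_pos
  refine ⟨c, hc, fun t hu hv p r q s hq hs => ?_⟩
  have hn := one_le_mul q s hq hs
  have hq0 : (0 : ℝ) < q := by exact_mod_cast hq
  have hs0 : (0 : ℝ) < s := by exact_mod_cast hs
  have h1 := h ((q : ℝ) * s) (err (t - exp 1) (t * exp 1) p r q s)
    |((-(r * q) : ℤ) : ℝ) + ((p * s : ℤ) : ℝ) * exp 1 + ((q * s : ℤ) : ℝ) * exp 1 ^ 2| hn
    (err_nonneg _ _ _ _ _ _) ?_
  · rw [show (2 + η + 1 : ℝ) = 3 + η by ring] at h1
    exact h1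
  intro hS
  right
  have ha : |t - exp 1 - (p : ℝ) / q| ≤ 1 := by
    unfold err at hS
    linarith [abs_nonneg (t * exp 1 - (r : ℝ) / s)]
  have hb : |t * exp 1 - (r : ℝ) / s| ≤ 1 := by
    unfold err at hS
    linarith [abs_nonneg (t - exp 1 - (p : ℝ) / q)]
  have hp := num_bound _ T hu p q hq ha
  have hr := num_bound _ T hv r s hs hb
  constructor
  · refine h0 _ _ _ ?_ _ ?_ ?_ ?_ ?_
    · have : (0 : ℤ) < q * s := by positivity
      exact this.ne'
    · nlinarith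
    · push_cast
      rw [abs_neg, abs_mul, abs_of_pos hq0]
      calc |(r : ℝ)| * q ≤ ((T + 1) * s) * q := by gcongr
        _ = _ := by ring
    · push_cast
      rw [abs_mul, abs_of_pos hs0]
      calc |(p : ℝ)| * s ≤ ((T + 1) * q) * s := by gcongr
        _ = _ := by ring
    · push_cast
      rw [abs_of_pos (by positivity)]
      nlinarith [mul_pos hq0 hs0]
  · have e1 : ((-(r * q) : ℤ) : ℝ) + ((p * s : ℤ) : ℝ) * exp 1 + ((q * s : ℤ) : ℝ) * exp 1 ^ 2 =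
        (q * s : ℝ) * ((t * exp 1 - (r : ℝ) / s) - (t - exp 1 - (p : ℝ) / q) * exp 1) := by
      push_cast
      field_simp
      ring
    rw [e1, abs_mul, abs_of_pos (mul_pos hq0 hs0)]
    have e2 : |(t * exp 1 - (r : ℝ) / s) - (t - exp 1 - (p : ℝ) / q) * exp 1| ≤
        exp 1 * err (t - exp 1) (t * exp 1) p r q s := by
      refine (abs_sub _ _).trans ?_
      unfold err
      rw [abs_mul, abs_of_pos (exp_pos 1)]
      have := exp_one_ge
      nlinarith [abs_nonneg (t * exp 1 - (r : ℝ) / s)]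
    calc (q : ℝ) * s * |(t * exp 1 - (r : ℝ) / s) - (t - exp 1 - (p : ℝ) / q) * exp 1|
        ≤ (q : ℝ) * s * (exp 1 * err (t - exp 1) (t * exp 1) p r q s) := by gcongr
      _ = _ := by ring

/-- the pairs `t + σ e`, `t / e` with `σ = 1, -1` -/
theorem r3s (σ : ℤ) (hσ : |(σ : ℝ)| = 1) (hT : 0 ≤ T) (hδ : 0 < δ) (hη : 0 < η) :
    ∃ c : ℝ, 0 < c ∧ ∀ t : ℝ, |t + σ * exp 1| ≤ T → |t / exp 1| ≤ T → δ ≤ |t + σ * exp 1| →
    ∀ (p r : ℤ) (q s : ℕ), 0 < q → 0 < s →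
    c * ((q : ℝ) * s) ^ (-(2 + η)) ≤ err (t + σ * exp 1) (t / exp 1) p r q s := by
  obtain ⟨c0, hc0, h0⟩ := lin1 η hη
  obtain ⟨c, hc, h⟩ := wrap c0 (T + 2) (exp 1) (1 + η) δ hc0 (by linarith) (exp_pos 1)
    (by linarith) hδ
  refine ⟨c, hc, fun t hu hv hd p r q s hq hs => ?_⟩
  have hn := one_le_mul q s hq hs
  have hq0 : (0 : ℝ) < q := by exact_mod_cast hq
  have hs0 : (0 : ℝ) < s := by exact_mod_cast hs
  have he0 := exp_pos 1
  have h1 := h ((q : ℝ) * s) (err (t + σ * exp 1) (t / exp 1) p r q s)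
    |((-(p * s) : ℤ) : ℝ) + (((r + σ * s) * q : ℤ) : ℝ) * exp 1| hn (err_nonneg _ _ _ _ _ _) ?_
  · rw [show (1 + η + 1 : ℝ) = 2 + η by ring] at h1
    exact h1
  intro hS
  by_cases hz : -(p * s) = (0 : ℤ) ∧ (r + σ * s) * q = (0 : ℤ)
  · left
    have hp0 : p = 0 := by
      have h2 : (p * s : ℤ) = 0 := by linarith [hz.1]
      rcases mul_eq_zero.1 h2 with h3 | h3
      · exact h3
      · exfalso
        have : s = 0 := by exact_mod_cast h3
        omega
    unfold err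
    rw [hp0]
    simp only [Int.cast_zero, zero_div, sub_zero]
    linarith [abs_nonneg (t / exp 1 - (r : ℝ) / s)]
  right
  have ha : |t + σ * exp 1 - (p : ℝ) / q| ≤ 1 := by
    unfold err at hS
    linarith [abs_nonneg (t / exp 1 - (r : ℝ) / s)]
  have hb : |t / exp 1 - (r : ℝ) / s| ≤ 1 := by
    unfold err at hS
    linarith [abs_nonneg (t + σ * exp 1 - (p : ℝ) / q)]
  have hp := num_bound _ T hu p q hq ha
  have hr := num_bound _ T hv r s hs hb
  constructor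
  · refine h0 _ _ ?_ _ ?_ ?_ ?_
    · by_contra hcon
      push Not at hcon
      exact hz hcon
    · nlinarith
    · push_cast
      rw [abs_neg, abs_mul, abs_of_pos hs0]
      calc |(p : ℝ)| * s ≤ ((T + 1) * q) * s := by gcongr
        _ ≤ _ := by nlinarith
    · push_cast
      rw [abs_mul, abs_of_pos hq0]
      calc |(r : ℝ) + σ * s| * q ≤ ((T + 1) * s + s) * q := by
            gcongr
            refine (abs_add_le _ _).trans ?_
            rw [abs_mul, hσ, abs_of_pos hs0, one_mul]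
            linarith
        _ = _ := by ring
  · have e1 : ((-(p * s) : ℤ) : ℝ) + (((r + σ * s) * q : ℤ) : ℝ) * exp 1 =
        (q * s : ℝ) * ((t + σ * exp 1 - (p : ℝ) / q) - (t / exp 1 - (r : ℝ) / s) * exp 1) := by
      push_cast
      field_simp
      ring
    rw [e1, abs_mul, abs_of_pos (mul_pos hq0 hs0)]
    have e2 : |(t + σ * exp 1 - (p : ℝ) / q) - (t / exp 1 - (r : ℝ) / s) * exp 1| ≤
        exp 1 * err (t + σ * exp 1) (t / exp 1) p r q s := by
      refine (abs_sub _ _).trans ?_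
      unfold err
      rw [abs_mul, abs_of_pos (exp_pos 1)]
      have := exp_one_ge
      nlinarith [abs_nonneg (t + σ * exp 1 - (p : ℝ) / q)]
    calc (q : ℝ) * s * |(t + σ * exp 1 - (p : ℝ) / q) - (t / exp 1 - (r : ℝ) / s) * exp 1|
        ≤ (q : ℝ) * s * (exp 1 * err (t + σ * exp 1) (t / exp 1) p r q s) := by gcongr
      _ = _ := by ring

theorem r32 (hT : 0 ≤ T) (hδ : 0 < δ) (hη : 0 < η) :
    ∃ c : ℝ, 0 < c ∧ ∀ t : ℝ, |t * exp 1| ≤ T → |t / exp 1| ≤ T → δ ≤ |t * exp 1| →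
    ∀ (p r : ℤ) (q s : ℕ), 0 < q → 0 < s →
    c * ((q : ℝ) * s) ^ (-(2 + η)) ≤ err (t * exp 1) (t / exp 1) p r q s := by
  obtain ⟨c0, hc0, h0⟩ := lin2 η hη
  obtain ⟨c, hc, h⟩ := wrap c0 (T + 1) (exp 1 ^ 2) (1 + η) δ hc0 (by linarith) (by positivity)
    (by linarith) hδ
  refine ⟨c, hc, fun t hu hv hd p r q s hq hs => ?_⟩
  have hn := one_le_mul q s hq hs
  have hq0 : (0 : ℝ) < q := by exact_mod_cast hq
  have hs0 : (0 : ℝ) < s := by exact_mod_cast hs
  have he0 := exp_pos 1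
  have h1 := h ((q : ℝ) * s) (err (t * exp 1) (t / exp 1) p r q s)
    |((-(p * s) : ℤ) : ℝ) + ((r * q : ℤ) : ℝ) * exp 1 ^ 2| hn (err_nonneg _ _ _ _ _ _) ?_
  · rw [show (1 + η + 1 : ℝ) = 2 + η by ring] at h1
    exact h1
  intro hS
  by_cases hz : -(p * s) = (0 : ℤ) ∧ r * q = (0 : ℤ)
  · left
    have hp0 : p = 0 := by
      have h2 : (p * s : ℤ) = 0 := by linarith [hz.1]
      rcases mul_eq_zero.1 h2 with h3 | h3
      · exact h3
      · exfalso
        have : s = 0 := by exact_mod_cast h3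
        omega
    unfold err
    rw [hp0]
    simp only [Int.cast_zero, zero_div, sub_zero]
    linarith [abs_nonneg (t / exp 1 - (r : ℝ) / s)]
  right
  have ha : |t * exp 1 - (p : ℝ) / q| ≤ 1 := by
    unfold err at hS
    linarith [abs_nonneg (t / exp 1 - (r : ℝ) / s)]
  have hb : |t / exp 1 - (r : ℝ) / s| ≤ 1 := by
    unfold err at hS
    linarith [abs_nonneg (t * exp 1 - (p : ℝ) / q)]
  have hp := num_bound _ T hu p q hq ha
  have hr := num_bound _ T hv r s hs hb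
  constructor
  · refine h0 _ _ ?_ _ ?_ ?_ ?_
    · by_contra hcon
      push Not at hcon
      exact hz hcon
    · nlinarith
    · push_cast
      rw [abs_neg, abs_mul, abs_of_pos hs0]
      calc |(p : ℝ)| * s ≤ ((T + 1) * q) * s := by gcongr
        _ = _ := by ring
    · push_cast
      rw [abs_mul, abs_of_pos hq0]
      calc |(r : ℝ)| * q ≤ ((T + 1) * s) * q := by gcongr
        _ = _ := by ring
  · have e1 : ((-(p * s) : ℤ) : ℝ) + ((r * q : ℤ) : ℝ) * exp 1 ^ 2 =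
        (q * s : ℝ) * ((t * exp 1 - (p : ℝ) / q) - (t / exp 1 - (r : ℝ) / s) * exp 1 ^ 2) := by
      push_cast
      field_simp
      ring
    rw [e1, abs_mul, abs_of_pos (mul_pos hq0 hs0)]
    have e2 : |(t * exp 1 - (p : ℝ) / q) - (t / exp 1 - (r : ℝ) / s) * exp 1 ^ 2| ≤
        exp 1 ^ 2 * err (t * exp 1) (t / exp 1) p r q s := by
      refine (abs_sub _ _).trans ?_
      unfold err
      rw [abs_mul, abs_of_pos (by positivity : 0 < exp 1 ^ 2)]
      have h5 : 1 ≤ exp 1 ^ 2 := one_le_pow₀ exp_one_ge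
      nlinarith [abs_nonneg (t * exp 1 - (p : ℝ) / q)]
    calc (q : ℝ) * s * |(t * exp 1 - (p : ℝ) / q) - (t / exp 1 - (r : ℝ) / s) * exp 1 ^ 2|
        ≤ (q : ℝ) * s * (exp 1 ^ 2 * err (t * exp 1) (t / exp 1) p r q s) := by gcongr
      _ = _ := by ring

end

end Pool.Agent.V11210.EP
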