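import Pool.Agent.TH456.TM.E

/-!
# Elimination of algebraic numbers

Let `x` have a transcendence measure of polynomial type in every degree. Let `P`, `Q` be integer
polynomials in one variable, and let `u`, `v` be numbers with `v = P(x) u + Q(x)`. Then `u` and `v` are
not both close to algebraic numbers of bounded degree, on the scale of a fixed power of the height
(apart from obvious exceptions).
-/

set_option autoImplicit false

namespace Pool.Agent.V11210.EP

open Polynomial Pool.Agent.TH456.TM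

/-- the coefficients of an integer polynomial are bounded by its values at `0, …, N` -/
lemma coeff_le_values (N : ℕ) : ∃ C : ℝ, 1 ≤ C ∧ ∀ R : ℤ[X], R.natDegree ≤ N → ∀ V : ℝ, 0 ≤ V →
    (∀ k ≤ N, ‖aeval (k : ℂ) R‖ ≤ V) → ∀ j, |(R.coeff j : ℝ)| ≤ C * V := by
  classical
  set b : ℕ → ℂ[X] := fun k => Lagrange.basis (Finset.range (N + 1)) (fun i : ℕ => (i : ℂ)) k with hb
  refine ⟨1 + ∑ k ∈ Finset.range (N + 1), ∑ j ∈ Finset.range (N + 1), ‖(b k).coeff j‖,
    le_add_of_nonneg_right (by positivity), fun R hR V hV h j => ?_⟩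
  have hinj : Set.InjOn (fun i : ℕ => (i : ℂ)) (Finset.range (N + 1) : Finset ℕ) :=
    fun a _ c _ hac => Nat.cast_injective (R := ℂ) hac
  set f : ℂ[X] := R.map (Int.castRingHom ℂ) with hf
  have hfd : f.natDegree ≤ N := natDegree_map_le.trans hR
  have hfdeg : f.degree < (Finset.range (N + 1)).card := by
    rw [Finset.card_range]
    exact lt_of_le_of_lt degree_le_natDegree (by exact_mod_cast Nat.lt_succ_of_le hfd)
  have hval : ∀ k ∈ Finset.range (N + 1), ‖f.eval (k : ℂ)‖ ≤ V := by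
    intro k hk
    have e : f.eval (k : ℂ) = aeval (k : ℂ) R := by
      rw [hf, aeval_def, eval_map]
      rfl
    rw [e]
    exact h k (by have := Finset.mem_range.1 hk; omega)
  have hC0 : 0 ≤ ∑ k ∈ Finset.range (N + 1), ∑ j ∈ Finset.range (N + 1), ‖(b k).coeff j‖ := by
    positivity
  by_cases hj : j < N + 1
  · have hcoef : f.coeff j = ∑ k ∈ Finset.range (N + 1), f.eval (k : ℂ) * (b k).coeff j := by
      conv_lhs => rw [Lagrange.eq_interpolate hinj hfdeg]
      rw [Lagrange.interpolate_apply, finsetSum_coeff]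
      refine Finset.sum_congr rfl fun k _ => ?_
      rw [coeff_C_mul]
    have e1 : |(R.coeff j : ℝ)| = ‖f.coeff j‖ := by
      rw [hf, coeff_map, eq_intCast, Complex.norm_intCast]
    rw [e1, hcoef]
    calc ‖∑ k ∈ Finset.range (N + 1), f.eval (k : ℂ) * (b k).coeff j‖
        ≤ ∑ k ∈ Finset.range (N + 1), ‖f.eval (k : ℂ) * (b k).coeff j‖ := norm_sum_le _ _
      _ ≤ ∑ k ∈ Finset.range (N + 1), V * ∑ j ∈ Finset.range (N + 1), ‖(b k).coeff j‖ := by
          refine Finset.sum_le_sum fun k hk => ?_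
          rw [norm_mul]
          refine mul_le_mul (hval k hk) ?_ (norm_nonneg _) hV
          exact Finset.single_le_sum (f := fun j => ‖(b k).coeff j‖) (fun _ _ => norm_nonneg _)
            (Finset.mem_range.2 hj)
      _ = (∑ k ∈ Finset.range (N + 1), ∑ j ∈ Finset.range (N + 1), ‖(b k).coeff j‖) * V := by
          rw [← Finset.mul_sum]
          ring
      _ ≤ _ := by
          gcongr
          linarith
  · rw [coeff_eq_zero_of_natDegree_lt (by omega)]
    simp only [Int.cast_zero, abs_zero]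
    positivity

/-- the degree of a determinant -/
lemma natDegree_det_le' {n : ℕ} (M : Matrix (Fin n) (Fin n) ℤ[X]) (D : ℕ)
    (h : ∀ i j, (M i j).natDegree ≤ D) : M.det.natDegree ≤ n * D := by
  rw [Matrix.det_apply]
  refine natDegree_sum_le_of_forall_le _ _ fun σ _ => ?_
  refine (natDegree_smul_le _ _).trans ?_
  refine (natDegree_prod_le _ _).trans ?_
  calc ∑ i, (M (σ i) i).natDegree ≤ ∑ _i : Fin n, D := Finset.sum_le_sum fun i _ => h _ _
    _ = n * D := by simp

/-- the eliminating polynomial -/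
noncomputable def elim (d : ℕ) (P Q A B : ℤ[X]) : ℤ[X] :=
  resultant (A.map (C : ℤ →+* ℤ[X])) ((B.map (C : ℤ →+* ℤ[X])).comp (C P * X + C Q)) A.natDegree d

lemma comp_natDegree_le (d : ℕ) (P Q B : ℤ[X]) (hB : B.natDegree ≤ d) :
    ((B.map (C : ℤ →+* ℤ[X])).comp (C P * X + C Q)).natDegree ≤ d := by
  refine natDegree_comp_le.trans ?_
  have h1 : (C P * X + C Q : (ℤ[X])[X]).natDegree ≤ 1 := natDegree_linear_le
  calc _ ≤ d * 1 := Nat.mul_le_mul (natDegree_map_le.trans hB) h1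
    _ = d := by ring

lemma aeval_int (y : ℂ) (B : ℤ[X]) : aeval y B = eval y (B.map (Int.castRingHom ℂ)) := by
  rw [aeval_def, ← eval_map]
  rfl

/-- the values of the eliminating polynomial -/
lemma aeval_elim (d : ℕ) (P Q A B : ℤ[X]) (hB : B.natDegree ≤ d) (z : ℂ) :
    aeval z (elim d P Q A B) = (A.leadingCoeff : ℂ) ^ d *
      ((A.map (Int.castRingHom ℂ)).roots.map
        fun α => aeval (aeval z P * α + aeval z Q) B).prod := by
  set φ : ℤ[X] →+* ℂ := (aeval z : ℤ[X] →ₐ[ℤ] ℂ).toRingHom with hφ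
  have hφa : ∀ p : ℤ[X], φ p = aeval z p := fun p => rfl
  have hinj : Function.Injective (Int.castRingHom ℂ) := RingHom.injective_int _
  have hφC : φ.comp (C : ℤ →+* ℤ[X]) = Int.castRingHom ℂ := Subsingleton.elim _ _
  have h1 : aeval z (elim d P Q A B) = resultant ((A.map (C : ℤ →+* ℤ[X])).map φ)
      (((B.map (C : ℤ →+* ℤ[X])).comp (C P * X + C Q)).map φ) A.natDegree d := by
    rw [resultant_map_map]
    rfl
  have h2 : (A.map (C : ℤ →+* ℤ[X])).map φ = A.map (Int.castRingHom ℂ) := by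
    rw [map_map, hφC]
  have h3 : ((B.map (C : ℤ →+* ℤ[X])).comp (C P * X + C Q)).map φ =
      (B.map (Int.castRingHom ℂ)).comp (C (aeval z P) * X + C (aeval z Q)) := by
    rw [map_comp, map_map, hφC]
    simp [hφa]
  have hdA : (A.map (Int.castRingHom ℂ)).natDegree = A.natDegree :=
    natDegree_map_eq_of_injective hinj A
  have hdG : ((B.map (Int.castRingHom ℂ)).comp (C (aeval z P) * X + C (aeval z Q))).natDegree ≤ d := by
    rw [← h3]
    exact natDegree_map_le.trans (comp_natDegree_le d P Q B hB)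
  rw [h1, h2, h3, ← hdA, resultant_eq_prod_eval _ _ d hdG (IsAlgClosed.splits _)]
  congr 1
  · rw [leadingCoeff_map_of_injective hinj]
    rfl
  · congr 1
    refine Multiset.map_congr rfl fun α _ => ?_
    rw [eval_comp, aeval_int (aeval z P * α + aeval z Q)]
    simp only [eval_add, eval_mul, eval_C, eval_X]

/-- the degree of the eliminating polynomial -/
lemma natDegree_elim (d : ℕ) (P Q : ℤ[X]) : ∃ N : ℕ, ∀ A B : ℤ[X], A.natDegree ≤ d →
    B.natDegree ≤ d → (elim d P Q A B).natDegree ≤ N := by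
  classical
  set D : ℕ := ∑ j ∈ Finset.range (d + 1), ∑ k ∈ Finset.range (d + 1),
    (((C P * X + C Q : (ℤ[X])[X]) ^ j).coeff k).natDegree with hD
  refine ⟨(d + d) * D, fun A B hA hB => ?_⟩
  have hG : ∀ k, ((((B.map (C : ℤ →+* ℤ[X])).comp (C P * X + C Q)).coeff k).natDegree) ≤ D := by
    intro k
    by_cases hk : k < d + 1
    · rw [comp, eval₂_eq_sum_range' _ (n := d + 1)
        (lt_of_le_of_lt (natDegree_map_le.trans hB) (Nat.lt_succ_self d)), finsetSum_coeff]
      refine natDegree_sum_le_of_forall_le _ _ fun j hj => ?_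
      rw [coeff_C_mul, coeff_map]
      refine (natDegree_C_mul_le _ _).trans ?_
      have h1 : (((C P * X + C Q : (ℤ[X])[X]) ^ j).coeff k).natDegree ≤
          ∑ k ∈ Finset.range (d + 1), (((C P * X + C Q : (ℤ[X])[X]) ^ j).coeff k).natDegree :=
        Finset.single_le_sum (f := fun k => (((C P * X + C Q : (ℤ[X])[X]) ^ j).coeff k).natDegree)
          (fun _ _ => Nat.zero_le _) (Finset.mem_range.2 hk)
      refine h1.trans ?_
      exact Finset.single_le_sum (f := fun j => ∑ k ∈ Finset.range (d + 1),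
        (((C P * X + C Q : (ℤ[X])[X]) ^ j).coeff k).natDegree)
          (fun _ _ => Nat.zero_le _) hj
    · rw [coeff_eq_zero_of_natDegree_lt
        (lt_of_le_of_lt (comp_natDegree_le d P Q B hB) (by omega)), natDegree_zero]
      exact Nat.zero_le _
  unfold elim resultant
  refine (natDegree_det_le' _ D ?_).trans ?_
  · intro i j
    unfold sylvester
    simp only [Matrix.of_apply]
    refine Fin.addCases (fun j1 => ?_) (fun j1 => ?_) j
    · rw [Fin.addCases_left]
      split_ifs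
      · exact hG _
      · simp
    · rw [Fin.addCases_right]
      split_ifs
      · rw [coeff_map, natDegree_C]
        exact Nat.zero_le _
      · simp
  · gcongr

lemma elim_ne_zero (d : ℕ) (P Q A B : ℤ[X]) (hA : A ≠ 0) (hB0 : B ≠ 0) (hB : B.natDegree ≤ d)
    (hnc : ∀ α ∈ (A.map (Int.castRingHom ℂ)).roots,
      1 ≤ (C α * P.map (Int.castRingHom ℂ) + Q.map (Int.castRingHom ℂ) : ℂ[X]).natDegree) :
    elim d P Q A B ≠ 0 := by
  classical
  have hinj : Function.Injective (Int.castRingHom ℂ) := RingHom.injective_int _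
  have hB' : B.map (Int.castRingHom ℂ) ≠ 0 := (Polynomial.map_ne_zero_iff hinj).2 hB0
  set F : ℂ → ℂ[X] := fun α => (B.map (Int.castRingHom ℂ)).comp
    (C α * P.map (Int.castRingHom ℂ) + Q.map (Int.castRingHom ℂ)) with hF
  have hF0 : ∀ α ∈ (A.map (Int.castRingHom ℂ)).roots, F α ≠ 0 := by
    intro α hα h0
    rcases comp_eq_zero_iff.1 h0 with h1 | h1
    · exact hB' h1
    · have h2 := hnc α hα
      rw [h1.2, natDegree_C] at h2
      omega
  set G : ℂ[X] := ((A.map (Int.castRingHom ℂ)).roots.map F).prod with hG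
  have hG0 : G ≠ 0 := by
    rw [hG]
    refine Multiset.prod_ne_zero ?_
    intro h0
    obtain ⟨α, hα, h1⟩ := Multiset.mem_map.1 h0
    exact hF0 α hα h1
  obtain ⟨z, hz⟩ : ∃ z : ℂ, G.eval z ≠ 0 := by
    by_contra hcon
    push Not at hcon
    exact hG0 (Polynomial.funext fun z => by rw [hcon z, eval_zero])
  intro h0
  have h1 := aeval_elim d P Q A B hB z
  rw [h0, map_zero] at h1
  have h2 : ((A.map (Int.castRingHom ℂ)).roots.map
        fun α => aeval (aeval z P * α + aeval z Q) B).prod = G.eval z := by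
    rw [hG, eval_multiset_prod, Multiset.map_map]
    congr 1
    refine Multiset.map_congr rfl fun α _ => ?_
    simp only [Function.comp, hF]
    rw [eval_comp, aeval_int (aeval z P * α + aeval z Q)]
    simp only [eval_add, eval_mul, eval_C, ← aeval_int]
    rw [mul_comm α]
  rw [h2] at h1
  have h3 : (A.leadingCoeff : ℂ) ≠ 0 := by
    exact_mod_cast leadingCoeff_ne_zero.2 hA
  exact (mul_ne_zero (pow_ne_zero _ h3) hz) h1.symm

lemma aeval_bound (d : ℕ) (B : ℤ[X]) (hB : B.natDegree ≤ d) (H : ℝ) (hH : 0 ≤ H)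
    (hBH : ∀ j, |(B.coeff j : ℝ)| ≤ H) (y : ℂ) :
    ‖aeval y B‖ ≤ ((d : ℝ) + 1) * H * (1 + ‖y‖) ^ d := by
  rw [aeval_eq_sum_range' (show B.natDegree < d + 1 by omega)]
  calc ‖∑ i ∈ Finset.range (d + 1), B.coeff i • y ^ i‖
      ≤ ∑ i ∈ Finset.range (d + 1), ‖B.coeff i • y ^ i‖ := norm_sum_le _ _
    _ ≤ ∑ _i ∈ Finset.range (d + 1), H * (1 + ‖y‖) ^ d := by
        refine Finset.sum_le_sum fun i hi => ?_
        rw [zsmul_eq_mul, norm_mul, Complex.norm_intCast, norm_pow]
        have h1 : ‖y‖ ^ i ≤ (1 + ‖y‖) ^ d := by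
          calc ‖y‖ ^ i ≤ (1 + ‖y‖) ^ i := by
                gcongr
                linarith
            _ ≤ (1 + ‖y‖) ^ d := by
                apply pow_le_pow_right₀
                · linarith [norm_nonneg y]
                · have := Finset.mem_range.1 hi
                  omega
        exact mul_le_mul (hBH i) h1 (by positivity) hH
    _ = _ := by
        rw [Finset.sum_const, Finset.card_range, nsmul_eq_mul]
        push_cast
        ring

lemma root_bound (A : ℤ[X]) (hA : A ≠ 0) (H : ℝ) (hH : 1 ≤ H) (hAH : ∀ j, |(A.coeff j : ℝ)| ≤ H)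
    (α : ℂ) (hα : α ∈ (A.map (Int.castRingHom ℂ)).roots) : ‖α‖ ≤ H + 1 := by
  have hinj : Function.Injective (Int.castRingHom ℂ) := RingHom.injective_int _
  have hA' : A.map (Int.castRingHom ℂ) ≠ 0 := (Polynomial.map_ne_zero_iff hinj).2 hA
  have h1 : ‖α‖ < (cauchyBound (A.map (Int.castRingHom ℂ)) : ℝ) := by
    have h0 := IsRoot.norm_lt_cauchyBound hA' (mem_roots'.1 hα).2
    exact_mod_cast h0
  refine h1.le.trans ?_
  unfold cauchyBound
  push_cast
  have hl : (1 : ℝ) ≤ ‖(A.map (Int.castRingHom ℂ)).leadingCoeff‖ := by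
    rw [leadingCoeff_map_of_injective hinj, eq_intCast, Complex.norm_intCast]
    exact_mod_cast Int.one_le_abs (leadingCoeff_ne_zero.2 hA)
  have hs : (((Finset.range (A.map (Int.castRingHom ℂ)).natDegree).sup
      fun i => ‖(A.map (Int.castRingHom ℂ)).coeff i‖₊ : NNReal) : ℝ) ≤ H := by
    have h2 : ((Finset.range (A.map (Int.castRingHom ℂ)).natDegree).sup
      fun i => ‖(A.map (Int.castRingHom ℂ)).coeff i‖₊) ≤ (⟨H, by linarith⟩ : NNReal) := by
      refine Finset.sup_le fun i _ => ?_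
      rw [← NNReal.coe_le_coe, coe_nnnorm, coeff_map, eq_intCast, Complex.norm_intCast]
      exact hAH i
    exact_mod_cast h2
  gcongr
  calc _ ≤ H / 1 := by
        gcongr
    _ = H := by ring

/-- the factors of the eliminating polynomial -/
lemma factor_bound (d : ℕ) (P Q A B : ℤ[X]) (hA : A ≠ 0) (hB : B.natDegree ≤ d) (H : ℝ)
    (hH : 1 ≤ H) (hAH : ∀ j, |(A.coeff j : ℝ)| ≤ H) (hBH : ∀ j, |(B.coeff j : ℝ)| ≤ H) (z : ℂ)
    (M : ℝ) (hP : ‖aeval z P‖ ≤ M) (hQ : ‖aeval z Q‖ ≤ M) (α : ℂ)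
    (hα : α ∈ (A.map (Int.castRingHom ℂ)).roots) :
    ‖aeval (aeval z P * α + aeval z Q) B‖ ≤ ((d : ℝ) + 1) * (1 + 3 * M) ^ d * H ^ (d + 1) := by
  have hM : 0 ≤ M := (norm_nonneg _).trans hP
  have h1 := root_bound A hA H hH hAH α hα
  have h2 : ‖aeval z P * α + aeval z Q‖ ≤ 3 * M * H := by
    calc ‖aeval z P * α + aeval z Q‖ ≤ ‖aeval z P‖ * ‖α‖ + ‖aeval z Q‖ := by
          refine (norm_add_le _ _).trans ?_
          rw [norm_mul]
      _ ≤ M * (H + 1) + M := by gcongr
      _ ≤ 3 * M * H := by nlinarith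
  refine (aeval_bound d B hB H (by linarith) hBH _).trans ?_
  calc ((d : ℝ) + 1) * H * (1 + ‖aeval z P * α + aeval z Q‖) ^ d
      ≤ ((d : ℝ) + 1) * H * ((1 + 3 * M) * H) ^ d := by
        gcongr
        calc 1 + ‖aeval z P * α + aeval z Q‖ ≤ H + 3 * M * H := by linarith
          _ = (1 + 3 * M) * H := by ring
    _ = _ := by
        rw [mul_pow]
        ring

lemma prod_bound (s : Multiset ℂ) (f : ℂ → ℂ) (K : ℝ) (hK : 1 ≤ K) (h : ∀ α ∈ s, ‖f α‖ ≤ K)
    (n : ℕ) (hn : s.card ≤ n) : ‖(s.map f).prod‖ ≤ K ^ n := by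
  have h1 : ‖(s.map f).prod‖ ≤ K ^ s.card := by
    induction s using Multiset.induction_on with
    | empty => simp
    | cons a s ih =>
      rw [Multiset.map_cons, Multiset.prod_cons, norm_mul, Multiset.card_cons, pow_succ, mul_comm]
      have h2 := ih (fun α hα => h α (Multiset.mem_cons_of_mem hα)) (by
        rw [Multiset.card_cons] at hn
        omega)
      have h3 := h a (Multiset.mem_cons_self a s)
      gcongr
  exact h1.trans (pow_le_pow_right₀ hK hn)

/-- **Elimination.** -/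
theorem main (x : ℂ) (hx : MeasT x) (P Q : ℤ[X]) (d : ℕ) : ∃ κ c : ℝ, 0 ≤ κ ∧ 0 < c ∧
    ∀ A B : ℤ[X], A ≠ 0 → B ≠ 0 → A.natDegree ≤ d → B.natDegree ≤ d → ∀ H : ℝ, 1 ≤ H →
      (∀ j, |(A.coeff j : ℝ)| ≤ H) → (∀ j, |(B.coeff j : ℝ)| ≤ H) →
      (∀ α ∈ (A.map (Int.castRingHom ℂ)).roots,
        1 ≤ (C α * P.map (Int.castRingHom ℂ) + Q.map (Int.castRingHom ℂ) : ℂ[X]).natDegree) →
      ∀ α : ℂ, aeval α A = 0 → c ≤ H ^ κ * ‖aeval (aeval x P * α + aeval x Q) B‖ := by
  classical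
  obtain ⟨N, hN⟩ := natDegree_elim d P Q
  obtain ⟨C1, hC1, hcoef⟩ := coeff_le_values N
  obtain ⟨κ0, c0, hκ0, hc0, hmeas⟩ := hx N
  set M : ℝ := ‖aeval x P‖ + ‖aeval x Q‖ +
    ∑ k ∈ Finset.range (N + 1), (‖aeval (k : ℂ) P‖ + ‖aeval (k : ℂ) Q‖) with hM
  have hM0 : 0 ≤ M := by positivity
  have hs0 : 0 ≤ ∑ k ∈ Finset.range (N + 1), (‖aeval (k : ℂ) P‖ + ‖aeval (k : ℂ) Q‖) := by
    positivity
  have hMx : ‖aeval x P‖ ≤ M ∧ ‖aeval x Q‖ ≤ M := by
    constructor <;> rw [hM] <;> linarith [norm_nonneg (aeval x P), norm_nonneg (aeval x Q)]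
  have hMk : ∀ k ≤ N, ‖aeval (k : ℂ) P‖ ≤ M ∧ ‖aeval (k : ℂ) Q‖ ≤ M := by
    intro k hk
    have h1 : ‖aeval (k : ℂ) P‖ + ‖aeval (k : ℂ) Q‖ ≤
        ∑ k ∈ Finset.range (N + 1), (‖aeval (k : ℂ) P‖ + ‖aeval (k : ℂ) Q‖) :=
      Finset.single_le_sum (f := fun k : ℕ => ‖aeval (k : ℂ) P‖ + ‖aeval (k : ℂ) Q‖)
        (fun _ _ => by positivity) (Finset.mem_range.2 (by omega))
    constructor <;> rw [hM] <;>
      linarith [norm_nonneg (aeval (k : ℂ) P), norm_nonneg (aeval (k : ℂ) Q),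
        norm_nonneg (aeval x P), norm_nonneg (aeval x Q)]
  set K : ℝ := ((d : ℝ) + 1) * (1 + 3 * M) ^ d with hK
  have hK1 : 1 ≤ K := by
    rw [hK]
    have h1 : (1 : ℝ) ≤ (d : ℝ) + 1 := by linarith [Nat.cast_nonneg (α := ℝ) d]
    have h2 : (1 : ℝ) ≤ (1 + 3 * M) ^ d := one_le_pow₀ (by linarith)
    nlinarith
  set e : ℕ := d + (d + 1) * d with he
  refine ⟨e * κ0 + e, c0 / ((C1 * K ^ d) ^ κ0 * K ^ d), by positivity, by positivity,
    fun A B hA hB hAd hBd H hH hAH hBH hnc α hα => ?_⟩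
  have hinj : Function.Injective (Int.castRingHom ℂ) := RingHom.injective_int _
  have hA' : A.map (Int.castRingHom ℂ) ≠ 0 := (Polynomial.map_ne_zero_iff hinj).2 hA
  have hKH : 1 ≤ K * H ^ (d + 1) := by
    have := one_le_pow₀ hH (n := d + 1)
    nlinarith
  have hcard : (A.map (Int.castRingHom ℂ)).roots.card ≤ d :=
    (card_roots' _).trans (natDegree_map_le.trans hAd)
  have hlc : ‖(A.leadingCoeff : ℂ) ^ d‖ ≤ H ^ d := by
    rw [norm_pow, Complex.norm_intCast]
    exact pow_le_pow_left₀ (abs_nonneg _) (hAH _) d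
  have hpow : H ^ d * (K * H ^ (d + 1)) ^ d = K ^ d * H ^ e := by
    rw [he, mul_pow, ← pow_mul, pow_add]
    ring
  -- the values at the integers
  have hvals : ∀ k ≤ N, ‖aeval (k : ℂ) (elim d P Q A B)‖ ≤ K ^ d * H ^ e := by
    intro k hk
    rw [aeval_elim d P Q A B hBd, norm_mul, ← hpow]
    refine mul_le_mul hlc ?_ (norm_nonneg _) (by positivity)
    exact prod_bound _ _ _ hKH (fun β hβ => factor_bound d P Q A B hA hBd H hH hAH hBH _ M
      (hMk k hk).1 (hMk k hk).2 β hβ) d hcard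
  have hcf := hcoef (elim d P Q A B) (hN A B hAd hBd) (K ^ d * H ^ e) (by positivity) hvals
  have hH' : 1 ≤ C1 * (K ^ d * H ^ e) := by
    have h1 := one_le_pow₀ hK1 (n := d)
    have h2 := one_le_pow₀ hH (n := e)
    have h3 : 1 ≤ K ^ d * H ^ e := by nlinarith
    nlinarith
  have hm := hmeas (elim d P Q A B) (elim_ne_zero d P Q A B hA hB hBd hnc) (hN A B hAd hBd)
    (C1 * (K ^ d * H ^ e)) hH' hcf
  -- the value at `x`
  have hαr : α ∈ (A.map (Int.castRingHom ℂ)).roots := by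
    rw [mem_roots hA', IsRoot, ← aeval_int]
    exact hα
  have hvx : ‖aeval x (elim d P Q A B)‖ ≤
      K ^ d * H ^ e * ‖aeval (aeval x P * α + aeval x Q) B‖ := by
    rw [aeval_elim d P Q A B hBd, norm_mul, ← Multiset.cons_erase hαr, Multiset.map_cons,
      Multiset.prod_cons, norm_mul, ← hpow]
    have h1 : ‖(((A.map (Int.castRingHom ℂ)).roots.erase α).map
        fun β => aeval (aeval x P * β + aeval x Q) B).prod‖ ≤ (K * H ^ (d + 1)) ^ d :=
      prod_bound _ _ _ hKH (fun β hβ => factor_bound d P Q A B hA hBd H hH hAH hBH _ M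
        hMx.1 hMx.2 β (Multiset.mem_of_mem_erase hβ)) d
        ((Multiset.card_le_card (Multiset.erase_le _ _)).trans hcard)
    calc _ ≤ H ^ d * (‖aeval (aeval x P * α + aeval x Q) B‖ * (K * H ^ (d + 1)) ^ d) := by
          gcongr
      _ = _ := by ring
  have hH0 : 0 < H := by linarith
  have hfin : c0 ≤ ((C1 * K ^ d) ^ κ0 * K ^ d) *
      (H ^ ((e : ℝ) * κ0 + e) * ‖aeval (aeval x P * α + aeval x Q) B‖) := by
    calc c0 ≤ (C1 * (K ^ d * H ^ e)) ^ κ0 * ‖aeval x (elim d P Q A B)‖ := hm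
      _ ≤ (C1 * (K ^ d * H ^ e)) ^ κ0 *
          (K ^ d * H ^ e * ‖aeval (aeval x P * α + aeval x Q) B‖) := by gcongr
      _ = _ := by
          rw [← mul_assoc C1, Real.mul_rpow (by positivity) (by positivity),
            Real.rpow_add hH0, Real.rpow_natCast, Real.rpow_mul hH0.le, Real.rpow_natCast]
          ring
  rw [div_le_iff₀ (by positivity)]
  linarith

end Pool.Agent.V11210.EP
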