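import Pool.Agent.V11210.EP.Pair

/-!
# The four numbers `t + e`, `t - e`, `t e`, `t / e`: approximation by algebraic numbers
-/

set_option autoImplicit false

namespace Pool.Agent.V11210.EP

open Polynomial Pool.Agent.TH456.TM

/-- `α` is an algebraic number of degree at most `d` and height at most `H`: a root of an irreducible
integer polynomial of degree at most `d` with coefficients of absolute value at most `H`. -/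
def IsAlg (d : ℕ) (H : ℝ) (α : ℂ) : Prop :=
  ∃ A : ℤ[X], Irreducible A ∧ A.natDegree ≤ d ∧ (∀ j, |(A.coeff j : ℝ)| ≤ H) ∧ aeval α A = 0

/-- the number `e` -/
noncomputable def E : ℂ := ((Real.exp 1 : ℝ) : ℂ)

lemma E_ne : E ≠ 0 := by
  unfold E
  exact_mod_cast (Real.exp_pos 1).ne'

/-- a pair with no exceptions -/
theorem pair_alg (P Q : ℤ[X]) (d : ℕ) (T : ℝ) (hT : 0 ≤ T)
    (hnc : ∀ α : ℂ,
      1 ≤ (C α * P.map (Int.castRingHom ℂ) + Q.map (Int.castRingHom ℂ) : ℂ[X]).natDegree) :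
    ∃ κ c : ℝ, 0 ≤ κ ∧ 0 < c ∧ ∀ u v : ℂ, ‖u‖ ≤ T → v = aeval E P * u + aeval E Q →
    ∀ H : ℝ, 1 ≤ H → ∀ α β : ℂ, IsAlg d H α → IsAlg d H β → c ≤ H ^ κ * (‖u - α‖ + ‖v - β‖) := by
  obtain ⟨κ, c, hκ, hc, h⟩ := pair E measT_e P Q d T hT
  refine ⟨κ, c, hκ, hc, fun u v hu huv H hH α β ⟨A, hA, hAd, hAH, hα⟩ ⟨B, hB, hBd, hBH, hβ⟩ => ?_⟩
  exact h u v hu huv A B hA.ne_zero hB.ne_zero hAd hBd H hH hAH hBH (fun α _ => hnc α) α β hα hβ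

/-- a pair with one exceptional integer -/
theorem pair_exc (P Q : ℤ[X]) (d : ℕ) (T δ : ℝ) (hT : 0 ≤ T) (hδ : 0 < δ) (m : ℤ)
    (hnc : ∀ α : ℂ, α ≠ m →
      1 ≤ (C α * P.map (Int.castRingHom ℂ) + Q.map (Int.castRingHom ℂ) : ℂ[X]).natDegree) :
    ∃ κ c : ℝ, 0 ≤ κ ∧ 0 < c ∧ ∀ u v : ℂ, ‖u‖ ≤ T → δ ≤ ‖u - m‖ →
    v = aeval E P * u + aeval E Q →
    ∀ H : ℝ, 1 ≤ H → ∀ α β : ℂ, IsAlg d H α → IsAlg d H β → c ≤ H ^ κ * (‖u - α‖ + ‖v - β‖) := by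
  obtain ⟨κ, c, hκ, hc, h⟩ := pair E measT_e P Q d T hT
  refine ⟨κ, min c δ, hκ, lt_min hc hδ,
    fun u v hu hum huv H hH α β ⟨A, hA, hAd, hAH, hα⟩ ⟨B, hB, hBd, hBH, hβ⟩ => ?_⟩
  by_cases hm : aeval (m : ℂ) A = 0
  · have h1 := root_eq A hA m hm α hα
    have h2 : (1 : ℝ) ≤ H ^ κ := Real.one_le_rpow hH hκ
    calc min c δ ≤ δ := min_le_right _ _
      _ ≤ ‖u - α‖ := by rw [h1]; exact hum
      _ ≤ 1 * (‖u - α‖ + ‖v - β‖) := by linarith [norm_nonneg (v - β)]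
      _ ≤ H ^ κ * (‖u - α‖ + ‖v - β‖) := by gcongr
  · refine (min_le_left _ _).trans
      (h u v hu huv A B hA.ne_zero hB.ne_zero hAd hBd H hH hAH hBH (fun γ hγ => hnc γ ?_) α β hα hβ)
    intro hγm
    apply hm
    rw [← hγm, aeval_int]
    exact (mem_roots'.1 hγ).2

lemma one_le_natDegree (p : ℂ[X]) (k : ℕ) (hk : 1 ≤ k) (h : p.coeff k ≠ 0) : 1 ≤ p.natDegree :=
  hk.trans (le_natDegree_of_ne_zero h)

/-- `t + e` and `t - e` -/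
theorem pair01 (d : ℕ) (T : ℝ) (hT : 0 ≤ T) :
    ∃ κ c : ℝ, 0 ≤ κ ∧ 0 < c ∧ ∀ t : ℂ, ‖t + E‖ ≤ T →
    ∀ H : ℝ, 1 ≤ H → ∀ α β : ℂ, IsAlg d H α → IsAlg d H β →
      c ≤ H ^ κ * (‖t + E - α‖ + ‖t - E - β‖) := by
  obtain ⟨κ, c, hκ, hc, h⟩ := pair_alg 1 (C (-2) * X) d T hT (fun α => by
    refine one_le_natDegree _ 1 le_rfl ?_
    simp)
  refine ⟨κ, c, hκ, hc, fun t ht => h (t + E) (t - E) ht ?_⟩
  simp only [map_one, map_mul, aeval_X, map_neg, map_ofNat]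
  ring

/-- `t + e` and `t e` -/
theorem pair02 (d : ℕ) (T : ℝ) (hT : 0 ≤ T) :
    ∃ κ c : ℝ, 0 ≤ κ ∧ 0 < c ∧ ∀ t : ℂ, ‖t + E‖ ≤ T →
    ∀ H : ℝ, 1 ≤ H → ∀ α β : ℂ, IsAlg d H α → IsAlg d H β →
      c ≤ H ^ κ * (‖t + E - α‖ + ‖t * E - β‖) := by
  obtain ⟨κ, c, hκ, hc, h⟩ := pair_alg X (-X ^ 2) d T hT (fun α => by
    refine one_le_natDegree _ 2 one_le_two ?_
    simp)
  refine ⟨κ, c, hκ, hc, fun t ht => h (t + E) (t * E) ht ?_⟩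
  simp only [map_neg, map_pow, aeval_X]
  ring

/-- `t - e` and `t e` -/
theorem pair12 (d : ℕ) (T : ℝ) (hT : 0 ≤ T) :
    ∃ κ c : ℝ, 0 ≤ κ ∧ 0 < c ∧ ∀ t : ℂ, ‖t - E‖ ≤ T →
    ∀ H : ℝ, 1 ≤ H → ∀ α β : ℂ, IsAlg d H α → IsAlg d H β →
      c ≤ H ^ κ * (‖t - E - α‖ + ‖t * E - β‖) := by
  obtain ⟨κ, c, hκ, hc, h⟩ := pair_alg X (X ^ 2) d T hT (fun α => by
    refine one_le_natDegree _ 2 one_le_two ?_
    simp)
  refine ⟨κ, c, hκ, hc, fun t ht => h (t - E) (t * E) ht ?_⟩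
  simp only [map_pow, aeval_X]
  ring

/-- `t / e` and `t + e` -/
theorem pair30 (d : ℕ) (T δ : ℝ) (hT : 0 ≤ T) (hδ : 0 < δ) :
    ∃ κ c : ℝ, 0 ≤ κ ∧ 0 < c ∧ ∀ t : ℂ, ‖t / E‖ ≤ T → δ ≤ ‖t / E + 1‖ →
    ∀ H : ℝ, 1 ≤ H → ∀ α β : ℂ, IsAlg d H α → IsAlg d H β →
      c ≤ H ^ κ * (‖t / E - α‖ + ‖t + E - β‖) := by
  obtain ⟨κ, c, hκ, hc, h⟩ := pair_exc X X d T δ hT hδ (-1) (fun α hα => by
    refine one_le_natDegree _ 1 le_rfl ?_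
    simp only [map_X, coeff_add, coeff_C_mul, coeff_X_one, mul_one]
    intro h0
    apply hα
    push_cast
    linear_combination h0)
  refine ⟨κ, c, hκ, hc, fun t ht hm => h (t / E) (t + E) ht (by
    push_cast
    rw [sub_neg_eq_add]
    exact hm) ?_⟩
  simp only [aeval_X]
  field_simp [E_ne]

/-- `t / e` and `t - e` -/
theorem pair31 (d : ℕ) (T δ : ℝ) (hT : 0 ≤ T) (hδ : 0 < δ) :
    ∃ κ c : ℝ, 0 ≤ κ ∧ 0 < c ∧ ∀ t : ℂ, ‖t / E‖ ≤ T → δ ≤ ‖t / E - 1‖ →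
    ∀ H : ℝ, 1 ≤ H → ∀ α β : ℂ, IsAlg d H α → IsAlg d H β →
      c ≤ H ^ κ * (‖t / E - α‖ + ‖t - E - β‖) := by
  obtain ⟨κ, c, hκ, hc, h⟩ := pair_exc X (-X) d T δ hT hδ 1 (fun α hα => by
    refine one_le_natDegree _ 1 le_rfl ?_
    simp only [map_X, Polynomial.map_neg, coeff_add, coeff_C_mul, coeff_neg, coeff_X_one, mul_one]
    intro h0
    apply hα
    push_cast
    linear_combination h0)
  refine ⟨κ, c, hκ, hc, fun t ht hm => h (t / E) (t - E) ht (by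
    push_cast
    exact hm) ?_⟩
  simp only [map_neg, aeval_X]
  field_simp [E_ne]
  ring

/-- `t / e` and `t e` -/
theorem pair32 (d : ℕ) (T δ : ℝ) (hT : 0 ≤ T) (hδ : 0 < δ) :
    ∃ κ c : ℝ, 0 ≤ κ ∧ 0 < c ∧ ∀ t : ℂ, ‖t / E‖ ≤ T → δ ≤ ‖t / E‖ →
    ∀ H : ℝ, 1 ≤ H → ∀ α β : ℂ, IsAlg d H α → IsAlg d H β →
      c ≤ H ^ κ * (‖t / E - α‖ + ‖t * E - β‖) := by
  obtain ⟨κ, c, hκ, hc, h⟩ := pair_exc (X ^ 2) 0 d T δ hT hδ 0 (fun α hα => by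
    refine one_le_natDegree _ 2 one_le_two ?_
    simp only [Polynomial.map_pow, map_X, Polynomial.map_zero, add_zero, coeff_C_mul, coeff_X_pow,
      if_true, mul_one]
    intro h0
    apply hα
    push_cast
    exact h0)
  refine ⟨κ, c, hκ, hc, fun t ht hm => h (t / E) (t * E) ht (by
    push_cast
    rw [sub_zero]
    exact hm) ?_⟩
  simp only [map_pow, map_zero, aeval_X, add_zero]
  field_simp [E_ne]

end Pool.Agent.V11210.EP
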