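import Pool.Agent.V11210.EP.Four

/-!
# At every scale at most one of `t + e`, `t - e`, `t e`, `t / e` is close to an algebraic number
-/

set_option autoImplicit false

namespace Pool.Agent.V11210.EP

open Polynomial

/-- the four numbers -/
noncomputable def four (t : ℂ) : Fin 4 → ℂ := ![t + E, t - E, t * E, t / E]

lemma one_le_norm_E : 1 ≤ ‖E‖ := by
  unfold E
  rw [Complex.norm_real, Real.norm_eq_abs, abs_of_pos (Real.exp_pos 1)]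
  exact Real.one_le_exp zero_le_one

lemma contra {κ κi c H S : ℝ} (hc : 0 < c) (hH1 : 1 ≤ H) (hH : 2 / c < H) (hκ : κi + 1 ≤ κ)
    (h : c ≤ H ^ κi * S) (hS : S ≤ H ^ (-κ) + H ^ (-κ)) : False := by
  have hH0 : 0 < H := by linarith
  have h1 : H ^ κi * S ≤ 2 * H ^ (-1 : ℝ) := by
    calc H ^ κi * S ≤ H ^ κi * (H ^ (-κ) + H ^ (-κ)) := by gcongr
      _ = 2 * H ^ (κi - κ) := by
          rw [Real.rpow_sub hH0, Real.rpow_neg hH0.le]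
          ring
      _ ≤ 2 * H ^ (-1 : ℝ) :=
          mul_le_mul_of_nonneg_left (Real.rpow_le_rpow_of_exponent_le hH1 (by linarith)) zero_le_two
  rw [Real.rpow_neg_one] at h1
  rw [div_lt_iff₀ hc] at hH
  have h2 : c * H ≤ 2 := by
    calc c * H ≤ (2 * H⁻¹) * H := by gcongr; exact h.trans h1
      _ = 2 := by field_simp
  linarith

/-- **Every scale.** -/
theorem every_scale (d : ℕ) (T δ : ℝ) (hδ : 0 < δ) :
    ∃ κ H₀ : ℝ, 0 ≤ κ ∧ ∀ t : ℂ, ‖t‖ ≤ T → δ ≤ ‖t‖ → δ ≤ ‖t - E‖ → δ ≤ ‖t + E‖ →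
      ∀ H : ℝ, H₀ ≤ H → {i : Fin 4 | ∃ α : ℂ, IsAlg d H α ∧ ‖four t i - α‖ ≤ H ^ (-κ)}.Subsingleton := by
  obtain ⟨e, he⟩ : ∃ e : ℝ, e = ‖E‖ := ⟨_, rfl⟩
  have he1 : 1 ≤ e := by rw [he]; exact one_le_norm_E
  obtain ⟨T', hT'⟩ : ∃ T' : ℝ, T' = |T| + e := ⟨_, rfl⟩
  have hT'0 : 0 ≤ T' := by rw [hT']; positivity
  obtain ⟨δ', hδ'⟩ : ∃ δ' : ℝ, δ' = δ / e := ⟨_, rfl⟩
  have hδ'0 : 0 < δ' := by rw [hδ']; positivity
  obtain ⟨κ1, c1, hκ1, hc1, h1⟩ := pair01 d T' hT'0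
  obtain ⟨κ2, c2, hκ2, hc2, h2⟩ := pair02 d T' hT'0
  obtain ⟨κ3, c3, hκ3, hc3, h3⟩ := pair12 d T' hT'0
  obtain ⟨κ4, c4, hκ4, hc4, h4⟩ := pair30 d T' δ' hT'0 hδ'0
  obtain ⟨κ5, c5, hκ5, hc5, h5⟩ := pair31 d T' δ' hT'0 hδ'0
  obtain ⟨κ6, c6, hκ6, hc6, h6⟩ := pair32 d T' δ' hT'0 hδ'0
  refine ⟨κ1 + κ2 + κ3 + κ4 + κ5 + κ6 + 1,
    1 + (2 / c1 + 2 / c2 + 2 / c3 + 2 / c4 + 2 / c5 + 2 / c6), by positivity,
    fun t hT h0 hm hp H hH => ?_⟩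
  have hq1 : 0 < 2 / c1 := by positivity
  have hq2 : 0 < 2 / c2 := by positivity
  have hq3 : 0 < 2 / c3 := by positivity
  have hq4 : 0 < 2 / c4 := by positivity
  have hq5 : 0 < 2 / c5 := by positivity
  have hq6 : 0 < 2 / c6 := by positivity
  have hH1 : 1 ≤ H := by linarith
  have hTt : ‖t‖ ≤ |T| := hT.trans (le_abs_self T)
  have n1 : ‖t + E‖ ≤ T' := by
    rw [hT', he]
    exact (norm_add_le _ _).trans (by linarith)
  have n2 : ‖t - E‖ ≤ T' := by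
    rw [hT', he]
    exact (norm_sub_le _ _).trans (by linarith)
  have n3 : ‖t / E‖ ≤ T' := by
    rw [norm_div, ← he, hT']
    calc ‖t‖ / e ≤ ‖t‖ / 1 := by gcongr
      _ ≤ |T| + e := by
          rw [div_one]
          linarith
  have n4 : δ' ≤ ‖t / E + 1‖ := by
    have e1 : t / E + 1 = (t + E) / E := by
      field_simp [E_ne]
    rw [e1, norm_div, ← he, hδ']
    gcongr
  have n5 : δ' ≤ ‖t / E - 1‖ := by
    have e1 : t / E - 1 = (t - E) / E := by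
      field_simp [E_ne]
    rw [e1, norm_div, ← he, hδ']
    gcongr
  have n6 : δ' ≤ ‖t / E‖ := by
    rw [norm_div, ← he, hδ']
    gcongr
  obtain ⟨κ, hκ⟩ : ∃ κ : ℝ, κ = κ1 + κ2 + κ3 + κ4 + κ5 + κ6 + 1 := ⟨_, rfl⟩
  rw [← hκ]
  have g1 := fun α β ha hb => h1 t n1 H hH1 α β ha hb
  have g2 := fun α β ha hb => h2 t n1 H hH1 α β ha hb
  have g3 := fun α β ha hb => h3 t n2 H hH1 α β ha hb
  have g4 := fun α β ha hb => h4 t n3 n4 H hH1 α β ha hb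
  have g5 := fun α β ha hb => h5 t n3 n5 H hH1 α β ha hb
  have g6 := fun α β ha hb => h6 t n3 n6 H hH1 α β ha hb
  have k1 : ∀ α β : ℂ, IsAlg d H α → IsAlg d H β → ‖t + E - α‖ ≤ H ^ (-κ) →
      ‖t - E - β‖ ≤ H ^ (-κ) → False := fun α β ha hb hu hv =>
    contra (κ := κ) hc1 hH1 (by linarith) (by linarith) (g1 α β ha hb) (by linarith)
  have k2 : ∀ α β : ℂ, IsAlg d H α → IsAlg d H β → ‖t + E - α‖ ≤ H ^ (-κ) →
      ‖t * E - β‖ ≤ H ^ (-κ) → False := fun α β ha hb hu hv =>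
    contra (κ := κ) hc2 hH1 (by linarith) (by linarith) (g2 α β ha hb) (by linarith)
  have k3 : ∀ α β : ℂ, IsAlg d H α → IsAlg d H β → ‖t - E - α‖ ≤ H ^ (-κ) →
      ‖t * E - β‖ ≤ H ^ (-κ) → False := fun α β ha hb hu hv =>
    contra (κ := κ) hc3 hH1 (by linarith) (by linarith) (g3 α β ha hb) (by linarith)
  have k4 : ∀ α β : ℂ, IsAlg d H α → IsAlg d H β → ‖t / E - α‖ ≤ H ^ (-κ) →
      ‖t + E - β‖ ≤ H ^ (-κ) → False := fun α β ha hb hu hv =>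
    contra (κ := κ) hc4 hH1 (by linarith) (by linarith) (g4 α β ha hb) (by linarith)
  have k5 : ∀ α β : ℂ, IsAlg d H α → IsAlg d H β → ‖t / E - α‖ ≤ H ^ (-κ) →
      ‖t - E - β‖ ≤ H ^ (-κ) → False := fun α β ha hb hu hv =>
    contra (κ := κ) hc5 hH1 (by linarith) (by linarith) (g5 α β ha hb) (by linarith)
  have k6 : ∀ α β : ℂ, IsAlg d H α → IsAlg d H β → ‖t / E - α‖ ≤ H ^ (-κ) →
      ‖t * E - β‖ ≤ H ^ (-κ) → False := fun α β ha hb hu hv =>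
    contra (κ := κ) hc6 hH1 (by linarith) (by linarith) (g6 α β ha hb) (by linarith)
  rintro i ⟨α, hα, hiα⟩ j ⟨β, hβ, hjβ⟩
  fin_cases i <;> fin_cases j <;> simp [four] at hiα hjβ ⊢
  · exact k1 α β hα hβ hiα hjβ
  · exact k2 α β hα hβ hiα hjβ
  · exact k4 β α hβ hα hjβ hiα
  · exact k1 β α hβ hα hjβ hiα
  · exact k3 α β hα hβ hiα hjβ
  · exact k5 β α hβ hα hjβ hiα
  · exact k2 β α hβ hα hjβ hiα
  · exact k3 β α hβ hα hjβ hiα
  · exact k6 β α hβ hα hjβ hiα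
  · exact k4 α β hα hβ hiα hjβ
  · exact k5 α β hα hβ hiα hjβ
  · exact k6 α β hα hβ hiα hjβ

end Pool.Agent.V11210.EP
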