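import Pool.Agent.V11210.EP.Elim

/-!
# Simultaneous approximation of `u` and `P(x) u + Q(x)` by algebraic numbers
-/

set_option autoImplicit false

namespace Pool.Agent.V11210.EP

open Polynomial Pool.Agent.TH456.TM

lemma pow_sub_le (T : ℝ) (hT : 0 ≤ T) (y β : ℂ) (hy : ‖y‖ ≤ T) (hβ : ‖β‖ ≤ T) (j : ℕ) :
    ‖y ^ j - β ^ j‖ ≤ j * (1 + T) ^ j * ‖y - β‖ := by
  induction j with
  | zero => simp
  | succ j ih =>
    have e : y ^ (j + 1) - β ^ (j + 1) = y * (y ^ j - β ^ j) + (y - β) * β ^ j := by ring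
    rw [e]
    have h1 : ‖β ^ j‖ ≤ (1 + T) ^ j := by
      rw [norm_pow]
      exact pow_le_pow_left₀ (norm_nonneg _) (by linarith) j
    have h3 : (1 + T) ^ j ≤ (1 + T) ^ (j + 1) := pow_le_pow_right₀ (by linarith) (Nat.le_succ j)
    calc ‖y * (y ^ j - β ^ j) + (y - β) * β ^ j‖
        ≤ ‖y‖ * ‖y ^ j - β ^ j‖ + ‖y - β‖ * ‖β ^ j‖ := by
          refine (norm_add_le _ _).trans ?_
          rw [norm_mul, norm_mul]
      _ ≤ (1 + T) * (j * (1 + T) ^ j * ‖y - β‖) + ‖y - β‖ * (1 + T) ^ (j + 1) := by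
          gcongr
          · linarith
          · exact h1.trans h3
      _ = _ := by
          push_cast
          ring

lemma lipschitz (d : ℕ) (B : ℤ[X]) (hB : B.natDegree ≤ d) (H : ℝ) (hH : 0 ≤ H)
    (hBH : ∀ j, |(B.coeff j : ℝ)| ≤ H) (T : ℝ) (hT : 0 ≤ T) (y β : ℂ) (hy : ‖y‖ ≤ T)
    (hβ : ‖β‖ ≤ T) :
    ‖aeval y B - aeval β B‖ ≤ ((d : ℝ) + 1) * (d * (1 + T) ^ d) * H * ‖y - β‖ := by
  rw [aeval_eq_sum_range' (show B.natDegree < d + 1 by omega),
    aeval_eq_sum_range' (show B.natDegree < d + 1 by omega), ← Finset.sum_sub_distrib]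
  calc ‖∑ i ∈ Finset.range (d + 1), (B.coeff i • y ^ i - B.coeff i • β ^ i)‖
      ≤ ∑ i ∈ Finset.range (d + 1), ‖B.coeff i • y ^ i - B.coeff i • β ^ i‖ := norm_sum_le _ _
    _ ≤ ∑ _i ∈ Finset.range (d + 1), H * (d * (1 + T) ^ d * ‖y - β‖) := by
        refine Finset.sum_le_sum fun i hi => ?_
        have hid : i ≤ d := by
          have := Finset.mem_range.1 hi
          omega
        rw [← smul_sub, zsmul_eq_mul, norm_mul, Complex.norm_intCast]
        refine mul_le_mul (hBH i) ((pow_sub_le T hT y β hy hβ i).trans ?_) (norm_nonneg _) hH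
        gcongr
        linarith
    _ = _ := by
        rw [Finset.sum_const, Finset.card_range, nsmul_eq_mul]
        push_cast
        ring

/-- **Pairs.** -/
theorem pair (x : ℂ) (hx : MeasT x) (P Q : ℤ[X]) (d : ℕ) (T : ℝ) (hT : 0 ≤ T) :
    ∃ κ c : ℝ, 0 ≤ κ ∧ 0 < c ∧ ∀ u v : ℂ, ‖u‖ ≤ T → v = aeval x P * u + aeval x Q →
    ∀ A B : ℤ[X], A ≠ 0 → B ≠ 0 → A.natDegree ≤ d → B.natDegree ≤ d → ∀ H : ℝ, 1 ≤ H →
      (∀ j, |(A.coeff j : ℝ)| ≤ H) → (∀ j, |(B.coeff j : ℝ)| ≤ H) →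
      (∀ α ∈ (A.map (Int.castRingHom ℂ)).roots,
        1 ≤ (C α * P.map (Int.castRingHom ℂ) + Q.map (Int.castRingHom ℂ) : ℂ[X]).natDegree) →
      ∀ α β : ℂ, aeval α A = 0 → aeval β B = 0 → c ≤ H ^ κ * (‖u - α‖ + ‖v - β‖) := by
  obtain ⟨κ, c, hκ, hc, h⟩ := main x hx P Q d
  set p : ℝ := ‖aeval x P‖ with hp
  set q : ℝ := ‖aeval x Q‖ with hq
  have hp0 : 0 ≤ p := norm_nonneg _
  have hq0 : 0 ≤ q := norm_nonneg _
  set T' : ℝ := p * (T + 1) + q + 1 with hT'
  have hT'0 : 0 ≤ T' := by positivity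
  set L : ℝ := ((d : ℝ) + 1) * (d * (1 + T') ^ d) * (1 + p) + 1 with hL
  have hL0 : 0 < L := by positivity
  refine ⟨κ + 1, min 1 (c / L), by linarith, by positivity,
    fun u v hu huv A B hA hB hAd hBd H hH hAH hBH hnc α β hα hβ => ?_⟩
  have hH0 : 0 < H := by linarith
  have hHκ : 1 ≤ H ^ (κ + 1) := Real.one_le_rpow hH (by linarith)
  set S : ℝ := ‖u - α‖ + ‖v - β‖ with hS
  have hS0 : 0 ≤ S := by positivity
  by_cases hS1 : 1 ≤ S
  · calc min 1 (c / L) ≤ 1 * 1 := by rw [one_mul]; exact min_le_left _ _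
      _ ≤ H ^ (κ + 1) * S := by gcongr
  push Not at hS1
  have huα : ‖u - α‖ ≤ S := by rw [hS]; linarith [norm_nonneg (v - β)]
  have hvβ : ‖v - β‖ ≤ S := by rw [hS]; linarith [norm_nonneg (u - α)]
  set y : ℂ := aeval x P * α + aeval x Q with hy
  have hαn : ‖α‖ ≤ T + 1 := by
    calc ‖α‖ = ‖u - (u - α)‖ := by congr 1; ring
      _ ≤ ‖u‖ + ‖u - α‖ := norm_sub_le _ _
      _ ≤ T + 1 := by linarith
  have hyn : ‖y‖ ≤ T' := by
    calc ‖y‖ ≤ p * ‖α‖ + q := by
          refine (norm_add_le _ _).trans ?_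
          rw [norm_mul]
      _ ≤ p * (T + 1) + q := by gcongr
      _ ≤ T' := by rw [hT']; linarith
  have hβn : ‖β‖ ≤ T' := by
    calc ‖β‖ = ‖v - (v - β)‖ := by congr 1; ring
      _ ≤ ‖v‖ + ‖v - β‖ := norm_sub_le _ _
      _ ≤ (p * T + q) + 1 := by
          gcongr
          · rw [huv]
            refine (norm_add_le _ _).trans ?_
            rw [norm_mul]
            gcongr
          · linarith
      _ ≤ T' := by rw [hT']; linarith
  have hyβ : ‖y - β‖ ≤ (1 + p) * S := by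
    calc ‖y - β‖ = ‖aeval x P * (α - u) + (v - β)‖ := by
          congr 1
          rw [hy, huv]
          ring
      _ ≤ p * ‖u - α‖ + ‖v - β‖ := by
          refine (norm_add_le _ _).trans ?_
          rw [norm_mul, norm_sub_rev α u]
      _ ≤ p * S + S := by gcongr
      _ = _ := by ring
  have h1 := h A B hA hB hAd hBd H hH hAH hBH hnc α hα
  have h2 : ‖aeval y B‖ ≤ L * H * S := by
    have h3 := lipschitz d B hBd H hH0.le hBH T' hT'0 y β hyn hβn
    rw [hβ, sub_zero] at h3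
    calc ‖aeval y B‖ ≤ ((d : ℝ) + 1) * (d * (1 + T') ^ d) * H * ‖y - β‖ := h3
      _ ≤ ((d : ℝ) + 1) * (d * (1 + T') ^ d) * H * ((1 + p) * S) := by gcongr
      _ = (L - 1) * H * S := by rw [hL]; ring
      _ ≤ L * H * S := by
          gcongr
          linarith
  have h4 : c ≤ L * (H ^ (κ + 1) * S) := by
    calc c ≤ H ^ κ * ‖aeval y B‖ := h1
      _ ≤ H ^ κ * (L * H * S) := by gcongr
      _ = _ := by
          rw [Real.rpow_add hH0, Real.rpow_one]
          ring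
  calc min 1 (c / L) ≤ c / L := min_le_right _ _
    _ ≤ H ^ (κ + 1) * S := by
        rw [div_le_iff₀ hL0]
        linarith

/-- an irreducible integer polynomial with an integer root has no other root -/
lemma root_eq (A : ℤ[X]) (hA : Irreducible A) (m : ℤ) (hm : aeval (m : ℂ) A = 0) (α : ℂ)
    (hα : aeval α A = 0) : α = m := by
  have h1 : A.eval m = 0 := by
    have h2 : ((A.eval m : ℤ) : ℂ) = 0 := by
      rw [← hm, aeval_int, ← eq_intCast (Int.castRingHom ℂ) m, eval_map_apply]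
      rfl
    exact_mod_cast h2
  obtain ⟨q, hq⟩ := dvd_iff_isRoot.2 h1
  rcases hA.isUnit_or_isUnit hq with h2 | h2
  · exact absurd h2 (not_isUnit_X_sub_C m)
  · obtain ⟨r, hr, hrq⟩ := Polynomial.isUnit_iff.1 h2
    rw [hq, ← hrq, map_mul, map_sub, aeval_X, aeval_C, aeval_C] at hα
    rcases mul_eq_zero.1 hα with h3 | h3
    · rw [sub_eq_zero] at h3
      rw [h3]
      rfl
    · exfalso
      have h4 : r ≠ 0 := hr.ne_zero
      apply h4
      have : (algebraMap ℤ ℂ r : ℂ) = (r : ℂ) := rfl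
      rw [this] at h3
      exact_mod_cast h3

end Pool.Agent.V11210.EP
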